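import Pool.Agent.MP_c69980_ag.H96.AlgA

/-!
Integrality at a normal crossing point.
-/

set_option autoImplicit false

noncomputable section

namespace Pool.Agent.MP_c69980_ag.H96

open MvPolynomial H60 H4

variable {K : Type} [Field K] [Algebra ℂ K]

/-- Valuation rings containing the local ring at the prime `p`. -/
def OvP (u : Fin 2 → K) (p : PR 2) (V : ValuationSubring K) : Prop :=
  (∀ a : PR 2, aeval u a ∈ V) ∧ ∀ a, ¬ p ∣ a → V.valuation (aeval u a) = 1

lemma OvP.inv {u : Fin 2 → K} {p a : PR 2} {V : ValuationSubring K} (h : OvP u p V)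
    (ha : ¬ p ∣ a) : aeval u a ≠ 0 ∧ (aeval u a)⁻¹ ∈ V := by
  have := h.2 a ha
  refine ⟨fun e => by simp [e] at this, ?_⟩
  rw [← V.valuation_le_one_iff, map_inv₀, this, inv_one]

lemma setupL {u : Fin 2 → K} (hu : IsTranscendenceBasis ℂ u) {Q : Prop}
    (h : ∀ [Algebra (PR 2) K] [Algebra (FractionRing (PR 2)) K]
      [IsScalarTower (PR 2) (FractionRing (PR 2)) K] [IsScalarTower ℂ (FractionRing (PR 2)) K],
      (∀ a, algebraMap (PR 2) K a = aeval u a) → (∀ g : K, IsAlgebraic (PR 2) g) → Q) : Q := by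
  let _ : Algebra (PR 2) K := (aeval u : PR 2 →ₐ[ℂ] K).toRingHom.toAlgebra
  have hinj : Function.Injective (algebraMap (PR 2) K) := hu.1
  let L := FractionRing (PR 2)
  let _ : Algebra L K := (IsFractionRing.lift hinj : L →+* K).toAlgebra
  have hLK : ∀ a, algebraMap L K (algebraMap _ L a) = aeval u a := fun a =>
    IsFractionRing.lift_algebraMap hinj a
  have _ : IsScalarTower (PR 2) L K := .of_algebraMap_eq fun a => (hLK a).symm
  have _ : IsScalarTower ℂ L K := .of_algebraMap_eq fun c => by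
    rw [IsScalarTower.algebraMap_apply ℂ (PR 2) L, hLK]; simp
  exact h (fun _ => rfl) fun g =>
    IsAlgebraic.of_ringHom_of_comp_eq hu.1.aevalEquiv.toAlgHom.toRingHom (RingHom.id K)
      (hu.isAlgebraic.isAlgebraic g) hu.1.aevalEquiv.surjective Function.injective_id
      (RingHom.ext fun a => hu.1.algebraMap_aevalEquiv a)

lemma log_p {n : ℕ} {W : Set (PS n)} {z : Fin n → K} (hz : GenPt W z) {u : Fin 2 → K}
    (hu : IsTranscendenceBasis ℂ u) {p : PR 2} (hp : Prime p) {V : ValuationSubring K}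
    (h : OvP u p V) (D : Derivation ℂ K K) (hD : ∀ a : PR 2, D (aeval u a) / aeval u a ∈ V)
    (g : K) : D g / g ∈ V := by
  refine setupL hu fun hA hal => ?_
  let L := FractionRing (PR 2)
  have hfd : FiniteDimensional L K := by
    have : Finite {u | ∃ i j, u = z i / z j} := Set.Finite.subset
      (Set.finite_range fun a : Fin n × Fin n => z a.1 / z a.2) fun _ ⟨i, j, e⟩ => ⟨(i, j), e.symm⟩
    have := IntermediateField.finiteDimensional_adjoin (S := {u | ∃ i j, u = z i / z j})
      fun g _ => ((IsFractionRing.isAlgebraic_iff (PR 2) L K).1 (hal g)).isIntegral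
    rw [IntermediateField.adjoin_eq_top_of_adjoin_eq_top ℂ hz.2] at this
    exact IntermediateField.topEquiv.toLinearEquiv.finiteDimensional
  have hC : ∀ c, algebraMap ℂ K c ∈ V := fun c => by simpa using h.1 (C c)
  have h2 : ∀ r, D (algebraMap L K r) / algebraMap L K r ∈ V := fun r => by
    obtain ⟨P, Q, hQ, rfl⟩ := IsFractionRing.div_surjective (A := PR 2) r
    rw [map_div₀, ← IsScalarTower.algebraMap_apply, ← IsScalarTower.algebraMap_apply, hA, hA]
    by_cases p0 : aeval u P = 0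
    · simp [p0]
    by_cases q0 : aeval u Q = 0
    · simp [q0]
    convert sub_mem (hD P) (hD Q) using 1
    simp only [D.leibniz_div, smul_eq_mul]
    field_simp
  have h3 := tame V L (R := PR 2) (fun a => hA a ▸ h.1 a) hC D (fun r => ?_) (fun g => ?_)
    fun c hc hc' g hg => ?_
  · simpa using hm_log V L hC D h2 V.one_mem (by simpa using h3) g
  · rw [hA]
    by_cases r0 : aeval u r = 0
    · rw [r0, map_zero]; exact V.zero_mem
    · exact (div_mul_cancel₀ (D (aeval u r)) r0) ▸ mul_mem (hD r) (h.1 r)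
  · obtain ⟨P, p0, p1⟩ := hal g
    obtain ⟨e, Q, q1, rfl⟩ := WfDvdMonoid.max_power_factor' p0
      (x := Polynomial.C p) (by rw [Polynomial.isUnit_C]; exact hp.not_isUnit)
    rw [Polynomial.C_dvd_iff_dvd_coeff] at q1
    push Not at q1
    obtain ⟨i, hi⟩ := q1
    refine ⟨Q, ?_, i, by rw [hA]; exact h.2 _ hi⟩
    rw [map_mul, map_pow, Polynomial.aeval_C, IsScalarTower.algebraMap_apply _ L K] at p1
    exact (mul_eq_zero.1 p1).resolve_left (pow_ne_zero _ (by simpa using hp.ne_zero))
  · by_cases g0 : g = 0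
    · simp [g0]
    rw [← div_mul_cancel₀ (c * D g) g0, map_mul, mul_comm]
    exact mul_lt_one_of_lt_of_le hg ((V.valuation_le_one_iff _).2
      (hm_log V L hC D h2 ((V.valuation_le_one_iff _).1 hc.le) hc' g))

lemma loc_int {u : Fin 2 → K} (hu : IsTranscendenceBasis ℂ u) {ζ : K}
    (h : ∀ p : PR 2, Prime p → eval 0 p = 0 → ∀ V, OvP u p V → ζ ∈ V) : LInt u ζ := by
  classical
  refine setupL hu fun hA hal => ?_
  let L := FractionRing (PR 2)
  have hI : IsIntegral L ζ := ((IsFractionRing.isAlgebraic_iff (PR 2) L K).1 (hal ζ)).isIntegral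
  have h1 : ∀ i, ∃ x y : PR 2, eval 0 y ≠ 0 ∧
      algebraMap _ L y * (minpoly L ζ).coeff i = algebraMap _ L x := fun i => by
    obtain ⟨x, ⟨y, hy⟩, hxy, e⟩ :=
      IsFractionRing.exists_reduced_fraction (PR 2) ((minpoly L ζ).coeff i)
    have y0 : y ≠ 0 := nonZeroDivisors.ne_zero hy
    have e' : algebraMap _ L y * (minpoly L ζ).coeff i = algebraMap _ L x := by
      rw [← e]; exact IsLocalization.mk'_spec' L x ⟨y, hy⟩
    refine ⟨x, y, fun h0 => ?_, e'⟩
    obtain ⟨p, hp, p0, hpy⟩ : ∃ p : PR 2, Prime p ∧ eval 0 p = 0 ∧ p ∣ y := by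
      clear hxy e e' hy
      induction y using UniqueFactorizationMonoid.induction_on_prime with
      | h₁ => exact absurd rfl y0
      | h₂ v hv => exact absurd h0 (hv.map (eval (0 : Fin 2 → ℂ))).ne_zero
      | h₃ a p a0 hp ih =>
        rw [map_mul, mul_eq_zero] at h0
        rcases h0 with h0 | h0
        · exact ⟨p, hp, h0, dvd_mul_right _ _⟩
        · obtain ⟨p', h1, h2, h3⟩ := ih a0 h0
          exact ⟨p', h1, h2, h3.mul_left _⟩
    have hP : (Ideal.span {p}).IsPrime := (Ideal.span_singleton_prime hp.ne_zero).2 hp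
    have hS : (Ideal.span {p}).primeCompl ≤ nonZeroDivisors (PR 2) :=
      Ideal.primeCompl_le_nonZeroDivisors _
    let R := Localization.subalgebra.ofField L _ hS
    have : IsIntegrallyClosed R := isIntegrallyClosed_of_isLocalization R _ hS
    have hi : IsIntegral R ζ := int_of_val fun V hV => h p hp p0 V ⟨fun a => by
      have := hV (algebraMap (PR 2) R a)
      rwa [← IsScalarTower.algebraMap_apply, hA] at this, fun a ha => by
      have a1 := hV (algebraMap (PR 2) R a)
      rw [← IsScalarTower.algebraMap_apply, hA] at a1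
      have a2 := hV ⟨_, 1, a, fun e => ha (Ideal.mem_span_singleton.1 e), rfl⟩
      change algebraMap L K (_ * _⁻¹) ∈ V at a2
      rw [map_one, one_mul, map_inv₀, ← IsScalarTower.algebraMap_apply, hA,
        ← V.valuation_le_one_iff, map_inv₀] at a2
      have a0 : aeval u a ≠ 0 := fun e => ha (by
        rw [hu.1 (e.trans (map_zero _).symm)]; exact dvd_zero _)
      rw [inv_le_one₀ (by simpa [zero_lt_iff] using a0)] at a2
      exact le_antisymm ((V.valuation_le_one_iff _).2 a1) a2⟩
    rw [minpoly.isIntegrallyClosed_eq_field_fractions' L hi, Polynomial.coeff_map] at e'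
    obtain ⟨a, s, hs, e2⟩ := ((minpoly R ζ).coeff i).2
    have s0 : algebraMap _ L s ≠ 0 := by simpa using nonZeroDivisors.ne_zero (hS hs)
    have e3 : y * a = x * s := IsFractionRing.injective (PR 2) L (by
      rw [map_mul, map_mul, ← e']
      change _ = _ * ((minpoly R ζ).coeff i : L) * _
      rw [e2, ← mul_assoc, inv_mul_cancel_right₀ s0])
    rcases hp.dvd_or_dvd (e3 ▸ hpy.mul_right a) with h4 | h4
    · exact hp.not_isUnit (hxy h4 hpy)
    · exact hs (Ideal.mem_span_singleton.2 h4)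
  choose x y hy e using h1
  let t := Finset.range ((minpoly L ζ).natDegree + 1)
  obtain ⟨N, hN⟩ := int2_away (u := u) (ζ := ζ) (θ := ∏ i ∈ t, y i) fun V hV h0 hi => by
    have c1 : ∀ i, algebraMap L K ((minpoly L ζ).coeff i) ∈ V := fun i => by
      by_cases hit : i ∈ t
      · have e1 := congrArg (algebraMap L K) (e i)
        rw [map_mul, ← IsScalarTower.algebraMap_apply, ← IsScalarTower.algebraMap_apply, hA,
          hA] at e1
        have := mul_mem (mul_mem hi (hV (∏ j ∈ t.erase i, y j))) (hV (x i))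
        rwa [← e1, mul_assoc, ← mul_assoc (aeval u _), ← map_mul, Finset.prod_erase_mul _ _ hit,
          inv_mul_cancel_left₀ h0] at this
      · rw [Polynomial.coeff_eq_zero_of_natDegree_lt (by simpa [t] using hit), map_zero]
        exact V.zero_mem
    refine val_int (R := V) V (fun r => r.2) ?_
    have hl : (minpoly L ζ).map (algebraMap L K) ∈ Polynomial.lifts (algebraMap V K) := by
      rw [Polynomial.lifts_iff_coeff_lifts]
      exact fun i => ⟨⟨_, c1 i⟩, by simp⟩
    obtain ⟨q, q1, -, q2⟩ := Polynomial.lifts_and_degree_eq_and_monic hl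
      ((minpoly.monic hI).map _)
    refine ⟨q, q2, ?_⟩
    rw [← Polynomial.eval_map, q1, Polynomial.eval_map, ← Polynomial.aeval_def, minpoly.aeval]
  refine ⟨(∏ i ∈ t, y i) ^ N, ?_, by rwa [map_pow]⟩
  rw [map_pow, map_prod]
  exact pow_ne_zero _ (Finset.prod_ne_zero_iff.2 fun i _ => hy i)

lemma forms {n n' : ℕ} {U : Set (PS n)} {z : Fin n → K} {W : Set (PS n')} {z' : Fin n' → K}
    {π : PS n' → PS n} {m : ℕ} {E : Fin 2 → Derivation ℂ K K} {h : Fin 3 → K}
    (hL : LDat U z W z' π m E h) (V : ValuationSubring K) (hC : ∀ c, algebraMap ℂ K c ∈ V)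
    {v : Fin 2 → K} (hv : Wd E (v 0) (v 1) ≠ 0) (hlog : ∀ i g, v i * pd E v i g / g ∈ V)
    (l : Fin 3) : (v 0 * v 1) ^ m * (h l / Wd E (v 0) (v 1) ^ m) ∈ V := by
  classical
  obtain ⟨hW, hz', -, -, -, -, -, hx⟩ := hL
  have hz0 : z' ≠ 0 := by
    rintro rfl
    obtain ⟨P, hP⟩ : W.Nonempty := by
      by_contra hS
      simpa using (hz'.1 1 0 (isHomogeneous_one _ _)).2 fun P hP => (hS ⟨P, hP⟩).elim
    obtain ⟨i, hi⟩ := Function.ne_iff.1 P.rep_nonzero
    exact hi (by simpa using (hz'.1 (X i) 1 (isHomogeneous_X _ _)).1 (by simp) P hP)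
  obtain ⟨P, ⟨x, hPx⟩, hP, -⟩ := centre2 (AlgHom.id ℂ K) V hC z' hz0
  simp only [AlgHom.id_apply] at hP
  have hxW : x ∈ W := by
    obtain ⟨S, hS, rfl⟩ := hW
    intro F hF
    obtain ⟨d, hd⟩ := hS F hF
    exact (hP x hPx).1 F d hd ((hz'.1 F d hd).mpr fun P hP => hP F hF)
  obtain ⟨-, -, -, s, r, G, e, hmax, hs0, -, -, -, hg⟩ := hx x hxW
  obtain ⟨b, hb, e1⟩ := nak hz' hxW E s hmax _ (hg l)
  have hs1 : ∀ l, (s l : K) ≠ 0 := fun l h => hs0 l (Subtype.ext h)
  set d : K := v 0 * pd E v 0 (s 0) / s 0 * (v 1 * pd E v 1 (s 1) / s 1) -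
    v 1 * pd E v 1 (s 0) / s 0 * (v 0 * pd E v 0 (s 1) / s 1) with hd
  have e2 : v 0 * v 1 / Wd E (v 0) (v 1) * (Matrix.of fun i l => E i (s l)).det =
      (∏ l, (s l : K)) * d := by
    have := wd_pd hv (s 0) (s 1)
    have e4 : (Matrix.of fun i l => E i (s l)).det = Wd E (s 0) (s 1) := by
      rw [Matrix.det_fin_two]
      simp [Wd, mul_comm]
    rw [e4, this, Fin.prod_univ_two, hd]
    have := hs1 0
    have := hs1 1
    field_simp
  have e3 : (v 0 * v 1) ^ m * (h l / Wd E (v 0) (v 1) ^ m) = b * ((∏ l ∈ rᶜ, (s l : K)) * d) ^ m := by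
    have hr : (∏ l ∈ r, (s l : K)) ^ m ≠ 0 :=
      pow_ne_zero _ (Finset.prod_ne_zero_iff.mpr fun l _ => hs1 l)
    apply mul_left_cancel₀ hr
    rw [show (v 0 * v 1) ^ m * (h l / Wd E (v 0) (v 1) ^ m) =
      (v 0 * v 1 / Wd E (v 0) (v 1)) ^ m * h l by rw [div_pow]; ring, mul_left_comm, e1,
      mul_left_comm, ← mul_pow, e2, mul_left_comm, ← mul_pow, ← mul_assoc,
      Finset.prod_mul_prod_compl]
  rw [e3]
  exact mul_mem ((hP x hPx).2 _ hb) (pow_mem (mul_mem (prod_mem fun l _ => (hP x hPx).2 _ (s l).2)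
    (sub_mem (mul_mem (hlog _ _) (hlog _ _)) (mul_mem (hlog _ _) (hlog _ _)))) _)

lemma log_all {u : Fin 2 → K} {p : PR 2} (hp : Prime p) {V : ValuationSubring K}
    (h : OvP u p V) (D : Derivation ℂ K K) (h1 : ∀ a : PR 2, D (aeval u a) ∈ V)
    (h2 : D (aeval u p) / aeval u p ∈ V) (a : PR 2) : D (aeval u a) / aeval u a ∈ V := by
  by_cases a0 : a = 0
  · simp [a0]
  obtain ⟨e, c, hc, rfl⟩ := WfDvdMonoid.max_power_factor' a0 hp.not_isUnit
  obtain ⟨c0, c1⟩ := h.inv hc
  clear a0
  induction e with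
  | zero => simpa [div_eq_mul_inv] using mul_mem (h1 c) c1
  | succ e ih =>
    by_cases p0 : aeval u p = 0
    · simp [p0]
    have e0 : aeval u (p ^ e * c) ≠ 0 := by simp [p0, c0]
    rw [pow_succ', mul_assoc, map_mul]
    generalize aeval u (p ^ e * c) = w at ih e0
    convert add_mem h2 ih using 1
    simp only [D.leibniz, smul_eq_mul]
    field_simp
    ring

lemma sq_not {A B p : PR 2} (hj : eval 0 (jp A B) ≠ 0) (p0 : eval 0 p = 0) :
    (∀ c, A = p * c → ¬ p ∣ c) ∧ ∀ c, B = p * c → ¬ p ∣ c := by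
  have p1 : constantCoeff p = 0 := by simpa using p0
  constructor
  · rintro _ rfl ⟨c, rfl⟩
    simp [jp, p1] at hj
  · rintro _ rfl ⟨c, rfl⟩
    simp [jp, p1] at hj

theorem algTerm : AlgTermStmt := by
  intro K _ _ n n' U z W z' π m E h u θ A B a b hL hA hj ha hb hab
  obtain ⟨hu, hW, h1, h2⟩ := hA
  have nd : ∀ p c : PR 2, eval 0 p = 0 → eval 0 c ≠ 0 → ¬ p ∣ c := by
    rintro p _ p0 hc ⟨c, rfl⟩
    exact hc (by rw [map_mul, p0, zero_mul])
  have e1 := wd_poly E u A B
  set v : Fin 2 → K := ![aeval u A, aeval u B] with hv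
  have j0 : aeval u (jp A B) ≠ 0 := fun e => hj (by
    rw [hu.1 (e.trans (map_zero _).symm), map_zero])
  have hv0 : Wd E (v 0) (v 1) ≠ 0 := e1 ▸ mul_ne_zero j0 hW
  have key : ∀ p : PR 2, Prime p → eval 0 p = 0 → ∀ V, OvP u p V →
      (∀ l, (v 0 * v 1) ^ m * (h l / Wd E (v 0) (v 1) ^ m) ∈ V) ∧
        ∀ j i, v i * pd E v i (z' j) / z' j ∈ V := fun p hp p0 V hV => by
    have j1 := (hV.inv (nd p _ p0 hj)).2
    have hvV : ∀ i, v i ∈ V := fun i => by fin_cases i <;> exact hV.1 _
    have k1 : ∀ i (c : PR 2), pd E v i (aeval u c) ∈ V := fun i c => by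
      fin_cases i
      · have := mul_mem (hV.1 (jp c B)) j1
        convert this using 1
        simp only [pd, hv, Fin.zero_eta, Matrix.cons_val_zero, Matrix.cons_val_one, wd_poly]
        field_simp
      · have := mul_mem (hV.1 (jp A c)) j1
        convert this using 1
        simp only [pd, hv, Fin.mk_one, Matrix.cons_val_zero, Matrix.cons_val_one, wd_poly]
        field_simp
    by_cases hAB : p ∣ A * B
    · have p1 : aeval u p ≠ 0 := fun e => hp.ne_zero (hu.1 (e.trans (map_zero _).symm))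
      have k2 : ∀ (i j : Fin 2) (c : PR 2), v j = aeval u p * aeval u c → ¬ p ∣ c →
          v i * pd E v i (aeval u p) / aeval u p ∈ V := fun i j c e hc => by
        by_cases hij : i = j
        · subst hij
          have := mul_mem (hV.1 c) (k1 i p)
          convert this using 1
          rw [e]
          field_simp
        · obtain ⟨c0, c1⟩ := hV.inv hc
          have e2 := pd_self hv0 i j
          rw [if_neg hij, ← pdD_apply, e, Derivation.leibniz, pdD_apply, pdD_apply, smul_eq_mul,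
            smul_eq_mul] at e2
          have := neg_mem (mul_mem (hvV i) (mul_mem (k1 i c) c1))
          convert this using 1
          field_simp
          linear_combination v i * e2
      have k3 : ∀ i, v i * pd E v i (aeval u p) / aeval u p ∈ V := fun i => by
        rcases hp.dvd_or_dvd hAB with ⟨c, hc⟩ | ⟨c, hc⟩
        · exact k2 i 0 c (by simp [hv, hc]) ((sq_not hj p0).1 c hc)
        · exact k2 i 1 c (by simp [hv, hc]) ((sq_not hj p0).2 c hc)
      have k4 : ∀ i g, v i * pd E v i g / g ∈ V := fun i g => by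
        have := log_p hL.2.1 hu hp hV (v i • pdD E v i) (log_all hp hV _
          (fun c => by simpa [pdD_apply] using mul_mem (hvV i) (k1 i c))
          (by simpa [pdD_apply] using k3 i)) g
        simpa [pdD_apply] using this
      exact ⟨forms hL V (fun c => by simpa using hV.1 (C c)) hv0 k4, fun j i => k4 i _⟩
    · have hθ : ¬ p ∣ θ := fun e =>
        (hp.dvd_or_dvd (hab ▸ e.mul_left b)).elim (nd p a p0 ha) hAB
      obtain ⟨t0, t1⟩ := hV.inv hθ
      refine ⟨fun l => ?_, fun j i => ?_⟩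
      · have := mul_mem (pow_mem (mul_mem (mul_mem (hvV 0) (hvV 1)) j1) m)
          (val_of_away (h1 l) V hV.1 t0 t1)
        convert this using 1
        rw [show Wd E (v 0) (v 1) = _ from e1]
        simp only [mul_pow, div_eq_mul_inv, mul_inv, inv_pow]
        ring
      · have := mul_mem (hvV i) (add_mem
          (mul_mem (val_of_away (h2 j 0) V hV.1 t0 t1) (k1 i (X 0)))
          (mul_mem (val_of_away (h2 j 1) V hV.1 t0 t1) (k1 i (X 1))))
        convert this using 1
        rw [pd_chain hW i (z' j), aeval_X, aeval_X]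
        ring
  refine ⟨e1, fun l => loc_int hu fun p hp p0 V hV => ?_,
    fun j i => loc_int hu fun p hp p0 V hV => (key p hp p0 V hV).2 j i⟩
  rw [map_mul]
  exact (key p hp p0 V hV).1 l

end Pool.Agent.MP_c69980_ag.H96
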