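import Pool.Agent.MP_c69980_ag.H4.SpecB

/-!
Derivatives with respect to coordinates, integrality by valuations, and the first two algebraic
statements.
-/

set_option autoImplicit false

noncomputable section

namespace Pool.Agent.MP_c69980_ag.H96

open MvPolynomial H60 H4

variable {K : Type} [Field K] [Algebra ℂ K]

/-- The derivative with respect to a coordinate, as a derivation. -/
def pdD (E : Fin 2 → Derivation ℂ K K) (u : Fin 2 → K) (i : Fin 2) : Derivation ℂ K K :=
  (Wd E (u 0) (u 1))⁻¹ •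
    ![E 1 (u 1) • E 0 - E 0 (u 1) • E 1, E 0 (u 0) • E 1 - E 1 (u 0) • E 0] i

variable (E : Fin 2 → Derivation ℂ K K)

lemma pdD_apply (u : Fin 2 → K) (i : Fin 2) (g : K) : pdD E u i g = pd E u i g := by
  fin_cases i <;> simp [pdD, pd, Wd] <;> ring

lemma der_poly (D : Derivation ℂ K K) (u : Fin 2 → K) (P : PR 2) :
    D (aeval u P) = aeval u (pderiv 0 P) * D (u 0) + aeval u (pderiv 1 P) * D (u 1) := by
  induction P using MvPolynomial.induction_on with
  | C c => simp
  | add p q hp hq => simp only [map_add, hp, hq]; ring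
  | mul_X p l hp =>
    simp only [map_mul, aeval_X, Derivation.leibniz, hp, smul_eq_mul, map_add, pderiv_X]
    fin_cases l <;> simp <;> ring

lemma wd_poly (u : Fin 2 → K) (A B : PR 2) :
    Wd E (aeval u A) (aeval u B) = aeval u (jp A B) * Wd E (u 0) (u 1) := by
  simp only [Wd, der_poly _ u A, der_poly _ u B, jp, map_sub, map_mul]
  ring

variable {E}

lemma wd_pd {u : Fin 2 → K} (h : Wd E (u 0) (u 1) ≠ 0) (f g : K) :
    Wd E f g = (pd E u 0 f * pd E u 1 g - pd E u 1 f * pd E u 0 g) * Wd E (u 0) (u 1) := by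
  simp only [pd, Matrix.cons_val_zero, Matrix.cons_val_one]
  field_simp
  simp only [Wd]
  ring

lemma pd_chain {u u' : Fin 2 → K} (h : Wd E (u 0) (u 1) ≠ 0) (i : Fin 2) (g : K) :
    pd E u' i g = pd E u 0 g * pd E u' i (u 0) + pd E u 1 g * pd E u' i (u 1) := by
  have e : ∀ a b c : K, a = (b * (Wd E (u 0) (u 1))⁻¹) + c * (Wd E (u 0) (u 1))⁻¹ ↔
      a * Wd E (u 0) (u 1) = b + c := fun a b c => by
    rw [← add_mul, ← div_eq_mul_inv, eq_div_iff h]
  fin_cases i
  · simp only [pd, Matrix.cons_val_zero, Matrix.cons_val_one, Fin.zero_eta, div_eq_mul_inv]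
    rw [mul_right_comm (Wd E g (u 1)), mul_right_comm (Wd E (u 0) g), e]
    simp only [Wd]
    ring
  · simp only [pd, Matrix.cons_val_zero, Matrix.cons_val_one, Fin.mk_one, div_eq_mul_inv]
    rw [mul_right_comm (Wd E g (u 1)), mul_right_comm (Wd E (u 0) g), e]
    simp only [Wd]
    ring

lemma pd_self {u : Fin 2 → K} (h : Wd E (u 0) (u 1) ≠ 0) (i j : Fin 2) :
    pd E u i (u j) = if i = j then 1 else 0 := by
  fin_cases i <;> fin_cases j <;> simp [pd, h] <;> simp [Wd, mul_comm]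

lemma pd_poly {u : Fin 2 → K} (h : Wd E (u 0) (u 1) ≠ 0) (i : Fin 2) (P : PR 2) :
    pd E u i (aeval u P) = aeval u (pderiv i P) := by
  rw [← pdD_apply, der_poly, pdD_apply, pdD_apply, pd_self h, pd_self h]
  fin_cases i <;> simp

lemma int2_val {u : Fin 2 → K} {ζ : K} (h : Int2 u ζ) (V : ValuationSubring K)
    (hV : ∀ a : PR 2, aeval u a ∈ V) : ζ ∈ V := by
  let _ : Algebra (PR 2) K := (aeval u : PR 2 →ₐ[ℂ] K).toRingHom.toAlgebra
  exact val_int (R := PR 2) V hV h

lemma int2_of_val {u : Fin 2 → K} {ζ : K}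
    (h : ∀ V : ValuationSubring K, (∀ a : PR 2, aeval u a ∈ V) → ζ ∈ V) : Int2 u ζ := by
  let _ : Algebra (PR 2) K := (aeval u : PR 2 →ₐ[ℂ] K).toRingHom.toAlgebra
  exact int_of_val (R := PR 2) h

lemma int2_away {u : Fin 2 → K} {ζ : K} {θ : PR 2}
    (h : ∀ V : ValuationSubring K, (∀ a : PR 2, aeval u a ∈ V) → aeval u θ ≠ 0 →
      (aeval u θ)⁻¹ ∈ V → ζ ∈ V) : ∃ N : ℕ, Int2 u (aeval u θ ^ N * ζ) := by
  by_cases h0 : aeval u θ = 0
  · exact ⟨1, int2_of_val fun V _ => by simp [h0]⟩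
  let _ : Algebra (PR 2) K := (aeval u : PR 2 →ₐ[ℂ] K).toRingHom.toAlgebra
  have hu : IsUnit (algebraMap (PR 2) K θ) := isUnit_iff_ne_zero.2 h0
  let φ : Localization.Away θ →+* K := IsLocalization.Away.lift θ hu
  let _ : Algebra (Localization.Away θ) K := φ.toAlgebra
  have hφ : ∀ a, φ (algebraMap (PR 2) _ a) = aeval u a := fun a =>
    IsLocalization.Away.lift_eq θ hu a
  have : IsScalarTower (PR 2) (Localization.Away θ) K := .of_algebraMap_eq fun a => (hφ a).symm
  have hi : IsIntegral (Localization.Away θ) ζ := int_of_val fun V hV =>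
    h V (fun a => hφ a ▸ hV _) h0 (by
      have e : φ (IsLocalization.Away.invSelf θ) = (aeval u θ)⁻¹ := by
        refine eq_inv_of_mul_eq_one_right ?_
        rw [← hφ, ← map_mul, IsLocalization.Away.mul_invSelf, map_one]
      exact e ▸ hV _)
  obtain ⟨⟨_, N, rfl⟩, hm⟩ := hi.exists_multiple_integral_of_isLocalization (Submonoid.powers θ)
  refine ⟨N, ?_⟩
  have hm' : IsIntegral (PR 2) (θ ^ N • ζ) := hm
  rw [Algebra.smul_def, map_pow] at hm'
  exact hm'

lemma val_of_away {u : Fin 2 → K} {ζ : K} {θ : PR 2} (h : ∃ N : ℕ, Int2 u (aeval u θ ^ N * ζ))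
    (V : ValuationSubring K) (hV : ∀ a : PR 2, aeval u a ∈ V) (h0 : aeval u θ ≠ 0)
    (h1 : (aeval u θ)⁻¹ ∈ V) : ζ ∈ V := by
  obtain ⟨N, h⟩ := h
  have := mul_mem (pow_mem h1 N) (int2_val h V hV)
  rwa [← mul_assoc, ← mul_pow, inv_mul_cancel₀ h0, one_pow, one_mul] at this

lemma alg_of_basis {u : Fin 2 → K} (hu : IsTranscendenceBasis ℂ u) (g : K) :
    ∃ a : PR 2, a ≠ 0 ∧ Int2 u (aeval u a * g) := by
  let _ : Algebra (PR 2) K := (aeval u : PR 2 →ₐ[ℂ] K).toRingHom.toAlgebra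
  have hal : IsAlgebraic (PR 2) g :=
    IsAlgebraic.of_ringHom_of_comp_eq hu.1.aevalEquiv.toAlgHom.toRingHom (RingHom.id K)
      (hu.isAlgebraic.isAlgebraic g) hu.1.aevalEquiv.surjective Function.injective_id
      (RingHom.ext fun a => hu.1.algebraMap_aevalEquiv a)
  exact hal.exists_integral_multiple

theorem algInit : AlgInitStmt := by
  classical
  intro K _ _ n n' U z W z' π m E h s hL
  obtain ⟨-, -, hk, hE, -, -, hind, -⟩ := hL
  have e : (![h 1 / h 0, h 2 / h 0] : Fin 2 → K) = fun i : Fin 2 => h i.succ / h 0 := by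
    funext i; fin_cases i <;> rfl
  rw [← e] at hind
  generalize (![h 1 / h 0, h 2 / h 0] : Fin 2 → K) = u at hind
  have hu : IsTranscendenceBasis ℂ u :=
    hind.isTranscendenceBasis_of_trdeg_le_of_finite (by simp [hk])
  have hW : Wd E (u 0) (u 1) ≠ 0 := by
    have := det_ne hu hE
    rw [Matrix.det_fin_two] at this
    simpa [Wd, mul_comm] using this
  choose a a0 ha using alg_of_basis hu
  let t : Finset K := s ∪ (Finset.univ.image fun l => h l / Wd E (u 0) (u 1) ^ m) ∪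
    Finset.univ.image fun j : Fin n' × Fin 2 => pd E u j.2 (z' j.1) / z' j.1
  obtain ⟨F, N, F1, -, F2⟩ := exists_squarefree_dvd_pow_of_ne_zero (x := ∏ ζ ∈ t, a ζ)
    (Finset.prod_ne_zero_iff.2 fun ζ _ => a0 ζ)
  have key : ∀ ζ ∈ t, ∃ N : ℕ, Int2 u (aeval u F ^ N * ζ) := fun ζ hζ => by
    obtain ⟨c, hc⟩ := (Finset.dvd_prod_of_mem a hζ).trans F2
    refine ⟨N, int2_of_val fun V hV => ?_⟩
    rw [← map_pow, hc, map_mul, mul_right_comm]
    exact mul_mem (int2_val (ha ζ) V hV) (hV c)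
  refine ⟨F, F1, ⟨hu, hW, fun l => key _ ?_, fun j i => key _ ?_⟩, fun ζ hζ => key _ ?_⟩
  · exact Finset.mem_union_left _ (Finset.mem_union_right _
      (Finset.mem_image_of_mem _ (Finset.mem_univ l)))
  · exact Finset.mem_union_right _ (Finset.mem_image_of_mem
      (fun j : Fin n' × Fin 2 => pd E u j.2 (z' j.1) / z' j.1) (Finset.mem_univ (j, i)))
  · exact Finset.mem_union_left _ (Finset.mem_union_left _ hζ)

theorem algChange : AlgChangeStmt := by
  intro K _ _ n' m z' E h u u' θ θ' s q p N hk hA hs hp hd hN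
  obtain ⟨hu, hW, h1, h2⟩ := hA
  have hu' : IsTranscendenceBasis ℂ u' := by
    have a1 : Algebra.adjoin ℂ (Set.range u) ≤
        (Subalgebra.algebraicClosure (Algebra.adjoin ℂ (Set.range u')) K).restrictScalars ℂ := by
      rw [Algebra.adjoin_le_iff]
      rintro _ ⟨i, rfl⟩
      have m1 : ∀ a : PR 2, aeval u' a ∈ Algebra.adjoin ℂ (Set.range u') := fun a => by
        rw [Algebra.adjoin_range_eq_range_aeval]; exact ⟨a, rfl⟩
      refine IsAlgebraic.of_smul (y := (⟨_, m1 s⟩ : Algebra.adjoin ℂ (Set.range u')))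
        (mem_nonZeroDivisors_of_ne_zero fun e => hs (congrArg Subtype.val e)) ?_
      rw [Subalgebra.smul_def, smul_eq_mul, hp i, mul_div_cancel₀ _ hs]
      exact isAlgebraic_algebraMap (⟨_, m1 (p i)⟩ : Algebra.adjoin ℂ (Set.range u'))
    have : Algebra.IsAlgebraic (Algebra.adjoin ℂ (Set.range u')) K := ⟨fun x => by
      have a2 : IsAlgebraic (Subalgebra.algebraicClosure (Algebra.adjoin ℂ (Set.range u')) K) x :=
        (hu.isAlgebraic.isAlgebraic x).tower_top_of_subalgebra_le a1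
      exact a2.restrictScalars _⟩
    exact Algebra.IsAlgebraic.isTranscendenceBasis_of_le_trdeg_of_finite ℂ u' (by simp [hk])
  have hW' : Wd E (u' 0) (u' 1) ≠ 0 := fun e => hW (by
    have e1 : ∀ A B : PR 2, Wd E (aeval u' A) (aeval u' B) = 0 := fun A B => by
      rw [wd_poly, e, mul_zero]
    have a := e1 (p 0) (p 1)
    have b := e1 (p 0) s
    have c := e1 s (p 1)
    simp only [Wd, hp, Derivation.leibniz_div, smul_eq_mul] at a b c ⊢
    linear_combination (aeval u' s)⁻¹ ^ 4 * (aeval u' s ^ 2 * a -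
      aeval u' s * aeval u' (p 1) * b - aeval u' s * aeval u' (p 0) * c))
  have key : ∀ V : ValuationSubring K, (∀ a : PR 2, aeval u' a ∈ V) → aeval u' θ' ≠ 0 →
      (aeval u' θ')⁻¹ ∈ V → (∀ a : PR 2, aeval u a ∈ V) ∧ aeval u θ ≠ 0 ∧ (aeval u θ)⁻¹ ∈ V ∧
        ∀ i j, pd E u' i (u j) ∈ V := fun V hV h0 hi => by
    obtain ⟨c, rfl⟩ := hd
    have c0 : aeval u' c ≠ 0 := fun e => h0 (by rw [map_mul, e, mul_zero])
    have s1 : (aeval u' s)⁻¹ ∈ V := by
      have := mul_mem hi (hV c)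
      rwa [map_mul, mul_inv, inv_mul_cancel_right₀ c0] at this
    have t0 : aeval u θ ≠ 0 := fun e => pow_ne_zero N h0 (by rw [hN, e, zero_mul])
    refine ⟨fun a => ?_, t0, ?_, fun i j => ?_⟩
    · induction a using MvPolynomial.induction_on with
      | C c => simpa using hV (C c)
      | add p q hp hq => rw [map_add]; exact add_mem hp hq
      | mul_X a l ha =>
        rw [map_mul, aeval_X, hp, div_eq_mul_inv]
        exact mul_mem ha (mul_mem (hV _) s1)
    · have q0 : aeval u' q ≠ 0 := fun e => pow_ne_zero N h0 (by rw [hN, e, mul_zero])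
      have := mul_mem (pow_mem hi N) (hV q)
      rwa [inv_pow, hN, mul_inv, inv_mul_cancel_right₀ q0] at this
    · rw [hp, ← pdD_apply, Derivation.leibniz_div, pdD_apply, pdD_apply, pd_poly hW',
        pd_poly hW']
      simp only [smul_eq_mul]
      exact mul_mem (pow_mem s1 _) (sub_mem (mul_mem (hV _) (hV _)) (mul_mem (hV _) (hV _)))
  refine ⟨hu', hW', fun l => int2_away fun V hV h0 hi => ?_,
    fun j i => int2_away fun V hV h0 hi => ?_⟩
  · obtain ⟨k1, k2, k3, k4⟩ := key V hV h0 hi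
    have := mul_mem (val_of_away (h1 l) V k1 k2 k3)
      (pow_mem (sub_mem (mul_mem (k4 0 0) (k4 1 1)) (mul_mem (k4 1 0) (k4 0 1))) m)
    convert this using 1
    have e := wd_pd hW' (u 0) (u 1)
    rw [← div_eq_iff hW'] at e
    rw [← e, div_pow]
    field_simp
  · obtain ⟨k1, k2, k3, k4⟩ := key V hV h0 hi
    have := add_mem (mul_mem (val_of_away (h2 j 0) V k1 k2 k3) (k4 i 0))
      (mul_mem (val_of_away (h2 j 1) V k1 k2 k3) (k4 i 1))
    convert this using 1
    rw [pd_chain hW i (z' j)]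
    ring

end Pool.Agent.MP_c69980_ag.H96
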